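import Mathlib

namespace Pool.Agent.Results.MP_32b555_nt.Ext

def UQD (H : Set ℕ) (μ : Set ℕ → ℝ) : Prop :=
  μ H = 1 ∧ (∀ X ⊆ H, ∀ Y ⊆ H, μ (X ∪ Y) ≤ μ X + μ Y) ∧
    (∀ X ⊆ H, ∀ h k : ℕ, 0 < h → 0 < k → μ ((fun x => k * x + h) '' X) = μ X / k) ∧
    ∀ X ⊆ H, μ X ≤ 1

theorem result (μ : Set ℕ → ℝ) (hμ : UQD (Set.Ici 1) μ) :
    ∃! ν : Set ℕ → ℝ, UQD Set.univ ν ∧ ∀ X ⊆ Set.Ici 1, ν X = μ X := by
  obtain ⟨h1, h3, h4, h5⟩ := hμ
  have hs : ∀ X : Set ℕ, (fun x => 1 * x + 1) '' X ⊆ Set.Ici 1 := by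
    rintro X _ ⟨x, -, rfl⟩; simp
  refine ⟨fun X => μ ((fun x => 1 * x + 1) '' X), ⟨⟨?_, ?_, ?_, fun X _ => h5 _ (hs X)⟩, ?_⟩, ?_⟩
  · rw [← h1]
    simp only
    congr 1
    ext y
    constructor
    · exact fun h => hs _ h
    · intro h
      exact ⟨y - 1, trivial, by simp only [Set.mem_Ici] at h ⊢; omega⟩
  · intro X _ Y _
    simp only [Set.image_union]
    exact h3 _ (hs X) _ (hs Y)
  · intro X _ h k hh hk
    have a := h4 _ (hs ((fun x => k * x + h) '' X)) k 1 hk one_pos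
    have b := h4 _ (hs X) (h + 1) k (by omega) hk
    simp only [Set.image_image, Nat.cast_one, div_one] at a b ⊢
    rw [← a, ← b]
    congr 2
    funext x
    ring
  · intro X hX
    simpa using h4 X hX 1 1 one_pos one_pos
  · rintro ν ⟨⟨-, -, g4, -⟩, g⟩
    funext X
    rw [← g _ (hs X), g4 X (Set.subset_univ _) 1 1 one_pos one_pos]
    simp

end Pool.Agent.Results.MP_32b555_nt.Ext
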